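import Pool.Agent.Q284.DL.Eu

/-! The relation between the Euler products over the fields in a relation of permutation characters. -/

set_option autoImplicit false
set_option linter.unusedSectionVars false

namespace Pool.Agent.Q284.DL

open Complex Filter Topology NumberField IsDedekindDomain Pool.Agent.W401.Cheb
  Pool.Agent.W353.NF Pool.Agent.Q5.BR

section
variable {K : Type} [Field K] [NumberField K] {r : ℕ}
  {Φ : ℕ → Matrix (Fin r) (Fin r) ℚ} {w : ℤ}

/-- the inverse Euler factor for the extension of degree `d` of the residue field -/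
noncomputable def Lam (Φ : ℕ → Matrix (Fin r) (Fin r) ℚ)
    (v : HeightOneSpectrum (𝓞 K)) (d : ℕ) (s : ℂ) : ℂ :=
  (1 - ((Ideal.absNorm v.asIdeal ^ d : ℕ) : ℂ) ^ (-s) •
    ((Φ (resChar v)) ^ (resDeg v * d)).map (algebraMap ℚ ℂ)).det

theorem charDet_under {F : Type} [Field F] [NumberField F] [Algebra K F]
    (u : HeightOneSpectrum (𝓞 F)) (s : ℂ) :
    charDet Φ u s = Lam Φ (u.under (𝓞 K)) (rdeg K u) s := by
  obtain ⟨h1, h2⟩ := res_under (K := K) u
  unfold charDet Lam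
  rw [h1, h2, absNorm_rdeg (K := K) u]

variable {ι : Type} [Fintype ι]

/-- **The relation between the Euler products.** -/
theorem L_rel {X : ι → Ext K} {n : ι → ℤ} (h : Rel X n) (hΦ : HasWeights w Φ) :
    ∃ T : Finset (HeightOneSpectrum (𝓞 K)), ∀ s : ℂ, (w : ℝ) / 2 + 1 < s.re →
      ∏ j, (LFun Φ (X j).F s) ^ (n j) =
        ∏ v ∈ T, ∏ j, (∏ u ∈ above (X j).F v, (charDet Φ u s)⁻¹) ^ (n j) := by
  classical
  obtain ⟨T, hT⟩ := euler_rel h
  refine ⟨T, fun s hs => ?_⟩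
  have h1 := hT T (Finset.Subset.refl _)
    (fun j (u : HeightOneSpectrum (𝓞 (X j).F)) => ell Φ u s)
    (fun v d => -Complex.log (Lam Φ v d s)) (fun j => summable_ell hΦ hs) (by
      intro j u _
      unfold ell
      rw [charDet_under (K := K)])
  have h2 := congrArg Complex.exp h1
  rw [Complex.exp_sum, Complex.exp_sum] at h2
  have h3 : ∀ j, Complex.exp ((n j : ℂ) * ∑' u : HeightOneSpectrum (𝓞 (X j).F), ell Φ u s) =
      (LFun Φ (X j).F s) ^ (n j) := by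
    intro j
    rw [Complex.exp_int_mul, ← LFun_exp hΦ hs]
  have h4 : ∀ v : HeightOneSpectrum (𝓞 K),
      Complex.exp (∑ j, (n j : ℂ) * ∑ u ∈ above (X j).F v, ell Φ u s) =
      ∏ j, (∏ u ∈ above (X j).F v, (charDet Φ u s)⁻¹) ^ (n j) := by
    intro v
    rw [Complex.exp_sum]
    refine Finset.prod_congr rfl fun j _ => ?_
    rw [Complex.exp_int_mul, Complex.exp_sum]
    congr 1
    exact Finset.prod_congr rfl fun u _ => exp_ell hΦ u (by linarith)
  rw [Finset.prod_congr rfl fun j _ => h3 j, Finset.prod_congr rfl fun v _ => h4 v] at h2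
  exact h2

/-- the finite part of the relation -/
noncomputable def Rf (Φ : ℕ → Matrix (Fin r) (Fin r) ℚ) (X : ι → Ext K)
    (n : ι → ℤ) (m : ℤ) (T : Finset (HeightOneSpectrum (𝓞 K))) (s : ℂ) : ℂ :=
  ∏ v ∈ T, ((∏ u ∈ above K v, (charDet Φ u s)⁻¹) ^ m *
    ∏ j, (∏ u ∈ above (X j).F v, (charDet Φ u s)⁻¹) ^ (-n j))

/-- **The power of `L` in the relation.** -/
theorem L_pow {X : ι → Ext K} {n : ι → ℤ} {m : ℤ}
    (h : ∀ σ : GK K, ∑ j, n j * (fixn K (X j).F σ : ℤ) = m) (hΦ : HasWeights w Φ) :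
    ∃ T : Finset (HeightOneSpectrum (𝓞 K)), ∀ s : ℂ, (w : ℝ) / 2 + 1 < s.re →
      (LFun Φ K s) ^ m = Rf Φ X n m T s * ∏ j, (LFun Φ (X j).F s) ^ (n j) := by
  classical
  let X' : Option ι → Ext K := fun o => o.elim (Ext.mk K) X
  let n' : Option ι → ℤ := fun o => o.elim (-m) n
  have hrel : Rel X' n' := by
    intro σ
    rw [Fintype.sum_option]
    change (-m) * (fixn K K σ : ℤ) + ∑ j, n j * (fixn K (X j).F σ : ℤ) = 0
    rw [h σ, fixn_self]
    push_cast
    ring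
  obtain ⟨T, hT⟩ := L_rel hrel hΦ
  refine ⟨T, fun s hs => ?_⟩
  have h1 := hT s hs
  rw [Fintype.prod_option] at h1
  have h2 : (LFun Φ K s) ^ (-m) * ∏ j, (LFun Φ (X j).F s) ^ (n j) =
      ∏ v ∈ T, ((∏ u ∈ above K v, (charDet Φ u s)⁻¹) ^ (-m) *
        ∏ j, (∏ u ∈ above (X j).F v, (charDet Φ u s)⁻¹) ^ (n j)) := by
    refine h1.trans (Finset.prod_congr rfl fun v _ => ?_)
    rw [Fintype.prod_option]
    rfl
  have h3 : Rf Φ X n m T s = (∏ v ∈ T, ((∏ u ∈ above K v, (charDet Φ u s)⁻¹) ^ (-m) *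
        ∏ j, (∏ u ∈ above (X j).F v, (charDet Φ u s)⁻¹) ^ (n j)))⁻¹ := by
    unfold Rf
    rw [← Finset.prod_inv_distrib]
    refine Finset.prod_congr rfl fun v _ => ?_
    rw [mul_inv, ← zpow_neg, neg_neg, ← Finset.prod_inv_distrib]
    congr 1
    exact Finset.prod_congr rfl fun j _ => by rw [zpow_neg]
  have hne2 : ∏ j, (LFun Φ (X j).F s) ^ (n j) ≠ 0 :=
    Finset.prod_ne_zero_iff.2 fun j _ => zpow_ne_zero _ (LFun_ne hΦ hs)
  rw [h3, ← h2, mul_inv, zpow_neg, inv_inv, mul_assoc, inv_mul_cancel₀ hne2, mul_one]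

theorem mero_inv {F : Type} [Field F] [NumberField F] (u : HeightOneSpectrum (𝓞 F)) (s : ℂ) :
    MeromorphicAt (fun s => (charDet Φ u s)⁻¹) s :=
  ((differentiable_charDet u).analyticAt s).meromorphicAt.inv

theorem Rf_mero (X : ι → Ext K) (n : ι → ℤ) (m : ℤ) (T : Finset (HeightOneSpectrum (𝓞 K))) :
    MeromorphicOn (Rf Φ X n m T) Set.univ := by
  intro s _
  unfold Rf
  refine MeromorphicAt.fun_prod fun v _ => ?_
  refine MeromorphicAt.fun_mul ?_ (MeromorphicAt.fun_prod fun j _ => ?_)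
  · exact MeromorphicAt.fun_zpow (MeromorphicAt.fun_prod fun u _ => mero_inv u s) _
  · exact MeromorphicAt.fun_zpow (MeromorphicAt.fun_prod fun u _ => mero_inv u s) _

theorem analytic_pow {F : Type} [Field F] [NumberField F] (hΦ : HasWeights w Φ)
    (A : Finset (HeightOneSpectrum (𝓞 F))) (k : ℤ) :
    AnalyticAt ℂ (fun s => (∏ u ∈ A, (charDet Φ u s)⁻¹) ^ k) 0 := by
  refine AnalyticAt.fun_zpow ?_ ?_
  · exact Finset.analyticAt_fun_prod _ fun u _ =>
      ((differentiable_charDet u).analyticAt 0).fun_inv (charDet_ne_zero hΦ u)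
  · exact Finset.prod_ne_zero_iff.2 fun u _ => inv_ne_zero (charDet_ne_zero hΦ u)

theorem Rf_analytic (X : ι → Ext K) (n : ι → ℤ) (m : ℤ) (T : Finset (HeightOneSpectrum (𝓞 K)))
    (hΦ : HasWeights w Φ) : AnalyticAt ℂ (Rf Φ X n m T) 0 := by
  unfold Rf
  refine Finset.analyticAt_fun_prod _ fun v _ => ?_
  exact (analytic_pow hΦ _ _).mul (Finset.analyticAt_fun_prod _ fun j _ =>
    analytic_pow hΦ _ _)

theorem Rf_ne (X : ι → Ext K) (n : ι → ℤ) (m : ℤ) (T : Finset (HeightOneSpectrum (𝓞 K)))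
    (hΦ : HasWeights w Φ) : Rf Φ X n m T 0 ≠ 0 := by
  unfold Rf
  refine Finset.prod_ne_zero_iff.2 fun v _ => mul_ne_zero ?_ (Finset.prod_ne_zero_iff.2 fun j _ => ?_)
  · exact zpow_ne_zero _ (Finset.prod_ne_zero_iff.2 fun u _ => inv_ne_zero (charDet_ne_zero hΦ u))
  · exact zpow_ne_zero _ (Finset.prod_ne_zero_iff.2 fun u _ => inv_ne_zero (charDet_ne_zero hΦ u))

theorem Rf_rat (X : ι → Ext K) (n : ι → ℤ) (m : ℤ) (T : Finset (HeightOneSpectrum (𝓞 K))) :
    ∃ q : ℚ, Rf Φ X n m T 0 = q := by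
  have key : ∀ {F : Type} [Field F] [NumberField F] (A : Finset (HeightOneSpectrum (𝓞 F))) (k : ℤ),
      (∏ u ∈ A, (charDet Φ u 0)⁻¹) ^ k ∈ (algebraMap ℚ ℂ).fieldRange := by
    intro F _ _ A k
    refine zpow_mem (prod_mem fun u _ => inv_mem ?_) k
    obtain ⟨q, hq⟩ := charDet_zero (Φ := Φ) u
    exact ⟨q, by rw [hq]; rfl⟩
  have h : Rf Φ X n m T 0 ∈ (algebraMap ℚ ℂ).fieldRange := by
    unfold Rf
    exact prod_mem fun v _ => mul_mem (key _ _) (prod_mem fun j _ => key _ _)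
  obtain ⟨q, hq⟩ := h
  exact ⟨q, by rw [← hq]; rfl⟩

end

end Pool.Agent.Q284.DL
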