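import Pool.Agent.Q284.DL.Fl

/-! Cyclotomic subfields of `ℂ` of coprime conductors meet in `ℚ`. -/

set_option autoImplicit false
set_option linter.unusedSectionVars false

namespace Pool.Agent.Q284.DL

open NumberField IntermediateField IsCyclotomicExtension Polynomial

theorem cyc_inst (n : ℕ) [NeZero n] : @IsCyclotomicExtension {n} ℚ (CyclotomicField n ℚ) _ _
    DivisionRing.toRatAlgebra := by
  have h : (CyclotomicField.algebra n ℚ : Algebra ℚ (CyclotomicField n ℚ)) =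
      DivisionRing.toRatAlgebra := Subsingleton.elim _ _
  rw [← h]
  exact CyclotomicField.isCyclotomicExtension n ℚ

/-- the subfield of `ℂ` generated by the `n`-th roots of unity -/
noncomputable def Cf (n : ℕ) : IntermediateField ℚ ℂ := IntermediateField.adjoin ℚ {z : ℂ | z ^ n = 1}

theorem mem_Cf {F : Type} [Field F] [NumberField F] {n p : ℕ} (hn : n ≠ 0) (hF : Good F n p)
    (τ : F →+* ℂ) (x : F) : τ x ∈ Cf n := by
  obtain ⟨ι⟩ := hF.2.2.2.2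
  have inn : NeZero n := ⟨hn⟩
  have hcy := cyc_inst n
  let _ : Algebra F (CyclotomicField n ℚ) := ι.toAlgebra
  let _ : Algebra F ℂ := τ.toAlgebra
  have hst : IsScalarTower ℚ F (CyclotomicField n ℚ) :=
    IsScalarTower.of_algebraMap_eq fun q => (map_ratCast ι q).symm ▸ by simp
  have hnf : NumberField (CyclotomicField n ℚ) := IsCyclotomicExtension.numberField {n} ℚ _
  have halg : Algebra.IsAlgebraic F (CyclotomicField n ℚ) :=
    Algebra.IsAlgebraic.tower_top (K := ℚ) F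
  let f : CyclotomicField n ℚ →ₐ[F] ℂ := IsAlgClosed.lift
  have h1 : τ x = f (ι x) := (f.commutes x).symm
  rw [h1]
  have h2 : ι x ∈ Algebra.adjoin ℚ {b : CyclotomicField n ℚ | ∃ k ∈ ({n} : Set ℕ), k ≠ 0 ∧ b ^ k = 1} :=
    IsCyclotomicExtension.adjoin_roots (S := {n}) (A := ℚ) (B := CyclotomicField n ℚ) (ι x)
  refine Algebra.adjoin_induction (p := fun y _ => f y ∈ Cf n) ?_ ?_ ?_ ?_ h2
  · rintro y ⟨k, hk, -, hy⟩
    rw [Set.mem_singleton_iff] at hk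
    subst hk
    refine IntermediateField.subset_adjoin ℚ _ ?_
    change (f y) ^ k = 1
    rw [← map_pow, hy, map_one]
  · intro q
    have h3 : f (algebraMap ℚ (CyclotomicField n ℚ) q) = algebraMap ℚ ℂ q := by
      simp
    rw [h3]
    exact (Cf n).algebraMap_mem q
  · intro a b _ _ ha hb
    rw [map_add]
    exact add_mem ha hb
  · intro a b _ _ ha hb
    rw [map_mul]
    exact mul_mem ha hb

theorem inf_aux {K : Type} [Field K] [NumberField K] (F₁ F₂ : IntermediateField ℚ K)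
    {n₁ n₂ : ℕ} [NeZero n₁] [NeZero n₂] [IsCyclotomicExtension {n₁} ℚ F₁]
    [IsCyclotomicExtension {n₂} ℚ F₂] (h : n₁.Coprime n₂) : F₁ ⊓ F₂ = ⊥ := by
  have h_cpr : IsCoprime (NumberField.discr F₁) (NumberField.discr F₂) := by
    rw [Int.isCoprime_iff_nat_coprime, IsCyclotomicExtension.Rat.natAbs_discr n₁ F₁,
      IsCyclotomicExtension.Rat.natAbs_discr n₂ F₂]
    refine Nat.Coprime.coprime_div_left ?_ (Nat.prod_primeFactors_pow_totient_ediv_dvd (NeZero.pos _))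
    refine Nat.Coprime.coprime_div_right ?_ (Nat.prod_primeFactors_pow_totient_ediv_dvd (NeZero.pos _))
    exact Nat.Coprime.pow_left _ (Nat.Coprime.pow_right _ h)
  have h_disj : F₁.LinearDisjoint F₂ := by
    have : IsGalois ℚ F₁ := IsCyclotomicExtension.isGalois {n₁} ℚ F₁
    apply linearDisjoint_of_isGalois_isCoprime_discr
    exact h_cpr
  exact h_disj.inf_eq_bot

theorem cyc_transfer {L : Type} [Field L] {n : ℕ} (A B : Algebra ℚ L)
    (h : @IsCyclotomicExtension {n} ℚ L _ _ A) : @IsCyclotomicExtension {n} ℚ L _ _ B := by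
  have hAB : A = B := Subsingleton.elim _ _
  subst hAB
  exact h

theorem inf_aux' {K : Type} [Field K] [NumberField K] {n₁ n₂ : ℕ} [NeZero n₁] [NeZero n₂]
    {ζ : K} (hζ : IsPrimitiveRoot ζ (n₁ * n₂)) (h : n₁.Coprime n₂) :
    ℚ⟮ζ ^ n₂⟯ ⊓ ℚ⟮ζ ^ n₁⟯ = ⊥ := by
  have i3 : NeZero (n₁ * n₂) := ⟨mul_ne_zero (NeZero.ne _) (NeZero.ne _)⟩
  have hζ₁ := hζ.pow (NeZero.pos _) (a := n₂) (b := n₁) (by rw [mul_comm])
  have hc1 := hζ₁.intermediateField_adjoin_isCyclotomicExtension ℚ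
  have hζ₂ := hζ.pow (NeZero.pos _) (a := n₁) (b := n₂) rfl
  have hc2 := hζ₂.intermediateField_adjoin_isCyclotomicExtension ℚ
  have hd1 : @IsCyclotomicExtension {n₁} ℚ ℚ⟮ζ ^ n₂⟯ _ _ DivisionRing.toRatAlgebra :=
    cyc_transfer _ _ hc1
  have hd2 : @IsCyclotomicExtension {n₂} ℚ ℚ⟮ζ ^ n₁⟯ _ _ DivisionRing.toRatAlgebra :=
    cyc_transfer _ _ hc2
  exact inf_aux ℚ⟮ζ ^ n₂⟯ ℚ⟮ζ ^ n₁⟯ h

theorem Cf_inf {n₁ n₂ : ℕ} (h1 : n₁ ≠ 0) (h2 : n₂ ≠ 0) (hc : n₁.Coprime n₂) {z : ℂ}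
    (hz1 : z ∈ Cf n₁) (hz2 : z ∈ Cf n₂) : ∃ q : ℚ, z = q := by
  have i1 : NeZero n₁ := ⟨h1⟩
  have i2 : NeZero n₂ := ⟨h2⟩
  have i3 : NeZero (n₁ * n₂) := ⟨mul_ne_zero h1 h2⟩
  let K := CyclotomicField (n₁ * n₂) ℚ
  have hK : IsCyclotomicExtension {n₁ * n₂} ℚ K := cyc_inst _
  have hnf : NumberField K := IsCyclotomicExtension.numberField {n₁ * n₂} ℚ K
  let ζ := zeta (n₁ * n₂) ℚ K
  have hζ := zeta_spec (n₁ * n₂) ℚ K
  have hζ₁ := hζ.pow (NeZero.pos _) (a := n₂) (b := n₁) (by rw [mul_comm])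
  have hζ₂ := hζ.pow (NeZero.pos _) (a := n₁) (b := n₂) rfl
  have hinf := inf_aux' hζ hc
  let φ : K →+* ℂ := (IsAlgClosed.lift : K →ₐ[ℚ] ℂ).toRingHom
  let _ : Algebra K ℂ := φ.toAlgebra
  have hst : IsScalarTower ℚ K ℂ :=
    IsScalarTower.of_algebraMap_eq fun q => (map_ratCast φ q).symm ▸ by simp
  let ψ : K →ₐ[ℚ] ℂ := IsScalarTower.toAlgHom ℚ K ℂ
  have key : ∀ (m : ℕ) (i : NeZero m) (η : K), IsPrimitiveRoot η m → ∀ y ∈ Cf m,
      y ∈ (ℚ⟮η⟯).map ψ := by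
    intro m i η hη y hy
    have hle : Cf m ≤ (ℚ⟮η⟯).map ψ := by
      refine IntermediateField.adjoin_le_iff.2 ?_
      intro x hx
      have hη' : IsPrimitiveRoot (ψ η) m := hη.map_of_injective ψ.injective
      obtain ⟨k, -, hk⟩ := hη'.eq_pow_of_pow_eq_one hx
      rw [← hk]
      have hm : ψ η ∈ (ℚ⟮η⟯).map ψ := ⟨η, IntermediateField.mem_adjoin_simple_self ℚ η, rfl⟩
      exact pow_mem hm k
    exact hle hy
  obtain ⟨y₁, hy₁, hy₁'⟩ := key n₁ i1 _ hζ₁ z hz1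
  obtain ⟨y₂, hy₂, hy₂'⟩ := key n₂ i2 _ hζ₂ z hz2
  have he : y₁ = y₂ := ψ.injective (hy₁'.trans hy₂'.symm)
  subst he
  have hb : y₁ ∈ (⊥ : IntermediateField ℚ K) := by
    rw [← hinf]
    exact ⟨hy₁, hy₂⟩
  obtain ⟨q, hq⟩ := IntermediateField.mem_bot.1 hb
  refine ⟨q, ?_⟩
  rw [← hy₁', ← hq]
  simp

end Pool.Agent.Q284.DL
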