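import Pool.Agent.Q5.BR.RadRel
import Pool.Agent.W540.BE.NF

/-! Euler products given by rational Frobenius matrices, over number fields. -/

set_option autoImplicit false
set_option linter.unusedSectionVars false

namespace Pool.Agent.Q284.DL

open Complex Filter Topology NumberField IsDedekindDomain Pool.Agent.W401.Cheb
  Pool.Agent.W353.NF Pool.Agent.Q5.BR

section
variable {F : Type} [Field F] [NumberField F] {r : ℕ}

/-- the residue characteristic of `v` -/
noncomputable def resChar (v : HeightOneSpectrum (𝓞 F)) : ℕ := (Ideal.absNorm v.asIdeal).minFac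

/-- the degree of the residue field of `v` over its prime field -/
noncomputable def resDeg (v : HeightOneSpectrum (𝓞 F)) : ℕ :=
  (Ideal.absNorm v.asIdeal).factorization (resChar v)

/-- the inverse of the Euler factor at `v` -/
noncomputable def charDet (Φ : ℕ → Matrix (Fin r) (Fin r) ℚ)
    (v : HeightOneSpectrum (𝓞 F)) (s : ℂ) : ℂ :=
  (1 - ((Ideal.absNorm v.asIdeal : ℕ) : ℂ) ^ (-s) •
    ((Φ (resChar v)) ^ (resDeg v)).map (algebraMap ℚ ℂ)).det

/-- the Euler product over the places of `F` -/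
noncomputable def LFun (Φ : ℕ → Matrix (Fin r) (Fin r) ℚ) (F : Type) [Field F]
    [NumberField F] (s : ℂ) : ℂ :=
  ∏' v : HeightOneSpectrum (𝓞 F), (charDet Φ v s)⁻¹

/-- all eigenvalues of `Φ p`, `p` prime, have absolute value at most `p ^ (w / 2)`, and none has
absolute value `1` -/
def HasWeights (w : ℤ) (Φ : ℕ → Matrix (Fin r) (Fin r) ℚ) : Prop :=
  ∀ p : ℕ, p.Prime → ∀ a : ℂ, (((Φ p).map (algebraMap ℚ ℂ)).charpoly).IsRoot a →
    ‖a‖ ≤ (p : ℝ) ^ ((w : ℝ) / 2) ∧ ‖a‖ ≠ 1

end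

section det
variable {r : ℕ}

theorem det_one_sub_smul (A : Matrix (Fin r) (Fin r) ℂ) (z : ℂ) :
    (1 - z • A).det = (A.charpoly.roots.map fun a => 1 - z * a).prod := by
  have hsp : A.charpoly.Splits := IsAlgClosed.splits _
  have hmon := A.charpoly_monic
  have hcard : A.charpoly.roots.card = r := by
    rw [← hsp.natDegree_eq_card_roots, Matrix.charpoly_natDegree_eq_dim, Fintype.card_fin]
  rcases eq_or_ne z 0 with rfl | hz
  · simp
  · have h1 : (1 - z • A) = z • (Matrix.scalar (Fin r) z⁻¹ - A) := by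
      rw [smul_sub]
      congr 1
      ext i j
      simp only [Matrix.smul_apply, Matrix.scalar_apply, Matrix.diagonal_apply, Matrix.one_apply,
        smul_eq_mul]
      split_ifs
      · rw [mul_inv_cancel₀ hz]
      · rw [mul_zero]
    rw [h1, Matrix.det_smul, Fintype.card_fin, ← Matrix.eval_charpoly]
    have h2 : A.charpoly.eval z⁻¹ = (A.charpoly.roots.map fun a => z⁻¹ - a).prod := by
      conv_lhs => rw [hsp.eq_prod_roots_of_monic hmon]
      rw [Polynomial.eval_multiset_prod, Multiset.map_map]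
      congr 1
      refine Multiset.map_congr rfl fun a _ => ?_
      simp
    have h3 : z ^ r = (A.charpoly.roots.map fun _ => z).prod := by
      rw [Multiset.map_const', Multiset.prod_replicate, hcard]
    rw [h2, h3, ← Multiset.prod_map_mul]
    congr 1
    refine Multiset.map_congr rfl fun a _ => ?_
    rw [mul_sub, mul_inv_cancel₀ hz]

theorem prod_swap {ι κ : Type*} (s : Finset ι) (R : Multiset κ) (g : ι → κ → ℂ) :
    ∏ i ∈ s, (R.map fun a => g i a).prod = (R.map fun a => ∏ i ∈ s, g i a).prod := by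
  induction R using Multiset.induction_on with
  | empty => simp
  | cons a R ih => simp only [Multiset.map_cons, Multiset.prod_cons, Finset.prod_mul_distrib, ih]

theorem det_one_sub_pow (A : Matrix (Fin r) (Fin r) ℂ) (x : ℂ) {f : ℕ} (hf : 0 < f) :
    (1 - x • A ^ f).det = (A.charpoly.roots.map fun a => 1 - x * a ^ f).prod := by
  classical
  obtain ⟨y, hy⟩ := IsAlgClosed.exists_pow_nat_eq x hf
  obtain ⟨ζ, hζ⟩ : ∃ ζ : ℂ, IsPrimitiveRoot ζ f := ⟨_, Complex.isPrimitiveRoot_exp f hf.ne'⟩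
  have hpol : (1 - Polynomial.C x * Polynomial.X ^ f : Polynomial ℂ) =
      ∏ η ∈ Polynomial.nthRootsFinset f (1 : ℂ), (1 - Polynomial.C (η * y) * Polynomial.X) := by
    refine Polynomial.funext fun t => ?_
    rw [Polynomial.eval_prod]
    have h1 := hζ.pow_sub_pow_eq_prod_sub_mul (1 : ℂ) (y * t) hf
    rw [one_pow, mul_pow, hy] at h1
    simp only [Polynomial.eval_sub, Polynomial.eval_one, Polynomial.eval_mul, Polynomial.eval_C,
      Polynomial.eval_pow, Polynomial.eval_X]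
    rw [h1]
    exact Finset.prod_congr rfl fun η _ => by ring
  have h3 : ∀ s : Finset ℂ, (Polynomial.aeval A
      (∏ η ∈ s, (1 - Polynomial.C (η * y) * Polynomial.X))).det =
        ∏ η ∈ s, (1 - (η * y) • A).det := by
    intro s
    induction s using Finset.induction_on with
    | empty => simp
    | insert a s ha ih =>
      rw [Finset.prod_insert ha, Finset.prod_insert ha, map_mul, Matrix.det_mul, ih]
      congr 2
      rw [map_sub, map_one, map_mul, Polynomial.aeval_C, Polynomial.aeval_X,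
        Algebra.algebraMap_eq_smul_one, smul_mul_assoc, one_mul]
  have h4 : Polynomial.aeval A (1 - Polynomial.C x * Polynomial.X ^ f : Polynomial ℂ) =
      1 - x • A ^ f := by
    rw [map_sub, map_one, map_mul, map_pow, Polynomial.aeval_C, Polynomial.aeval_X,
      Algebra.algebraMap_eq_smul_one, smul_mul_assoc, one_mul]
  rw [← h4, hpol, h3, Finset.prod_congr rfl fun η _ => det_one_sub_smul A (η * y), prod_swap]
  congr 1
  refine Multiset.map_congr rfl fun a _ => ?_
  have h1 := hζ.pow_sub_pow_eq_prod_sub_mul (1 : ℂ) (y * a) hf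
  rw [one_pow, mul_pow, hy] at h1
  rw [h1]
  exact Finset.prod_congr rfl fun η _ => by ring

theorem norm_prod_sub_one (R : Multiset ℂ) {t : ℝ} (ht0 : 0 ≤ t) (ht : t ≤ 1)
    (h : ∀ y ∈ R, ‖y‖ ≤ t) : ‖(R.map fun y => 1 - y).prod - 1‖ ≤ (2 ^ R.card - 1) * t := by
  induction R using Multiset.induction_on with
  | empty => simp
  | cons a R ih =>
    have ih' := ih fun y hy => h y (Multiset.mem_cons_of_mem hy)
    have ha := h a (Multiset.mem_cons_self a R)
    set P := (R.map fun y => 1 - y).prod with hP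
    have h2 : (1 : ℝ) ≤ 2 ^ R.card := one_le_pow₀ (by norm_num)
    have h3 : ‖P‖ ≤ 2 ^ R.card := by
      have h4 : ‖P‖ ≤ ‖P - 1‖ + ‖(1 : ℂ)‖ := by
        have := norm_add_le (P - 1) 1
        rwa [sub_add_cancel] at this
      rw [norm_one] at h4
      have h5 : (2 ^ R.card - 1) * t ≤ 2 ^ R.card - 1 := mul_le_of_le_one_right (by linarith) ht
      linarith
    rw [Multiset.map_cons, Multiset.prod_cons, Multiset.card_cons, ← hP]
    have h6 : (1 - a) * P - 1 = (P - 1) - a * P := by ring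
    rw [h6]
    refine (norm_sub_le _ _).trans ?_
    rw [norm_mul]
    have h7 : ‖a‖ * ‖P‖ ≤ t * 2 ^ R.card := mul_le_mul ha h3 (norm_nonneg _) ht0
    rw [pow_succ]
    linarith

end det

section norms
variable {F : Type} [Field F] [NumberField F]

theorem exists_prime_pow (v : HeightOneSpectrum (𝓞 F)) :
    ∃ p n : ℕ, p.Prime ∧ 0 < n ∧ Ideal.absNorm v.asIdeal = p ^ n := by
  have hm : v.asIdeal.IsMaximal := v.isMaximal
  let _ : Field (𝓞 F ⧸ v.asIdeal) := Ideal.Quotient.field _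
  have hfin : Finite (𝓞 F ⧸ v.asIdeal) := v.asIdeal.finiteQuotientOfFreeOfNeBot v.ne_bot
  let _ : Fintype (𝓞 F ⧸ v.asIdeal) := Fintype.ofFinite _
  obtain ⟨p, hp⟩ := CharP.exists (𝓞 F ⧸ v.asIdeal)
  obtain ⟨n, hn, hc⟩ := FiniteField.card (𝓞 F ⧸ v.asIdeal) p
  refine ⟨p, n, hn, n.pos, ?_⟩
  rw [Ideal.absNorm_apply, Submodule.cardQuot_apply, Nat.card_eq_fintype_card]
  exact hc

theorem resChar_eq {v : HeightOneSpectrum (𝓞 F)} {p n : ℕ} (hp : p.Prime) (hn : 0 < n)
    (h : Ideal.absNorm v.asIdeal = p ^ n) : resChar v = p ∧ resDeg v = n := by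
  have h1 : resChar v = p := by
    unfold resChar
    rw [h, hp.pow_minFac hn.ne']
  refine ⟨h1, ?_⟩
  unfold resDeg
  rw [h1, h, hp.factorization_pow, Finsupp.single_eq_same]

theorem resChar_prime (v : HeightOneSpectrum (𝓞 F)) : (resChar v).Prime := by
  obtain ⟨p, n, hp, hn, h⟩ := exists_prime_pow v
  rw [(resChar_eq hp hn h).1]
  exact hp

theorem resDeg_pos (v : HeightOneSpectrum (𝓞 F)) : 0 < resDeg v := by
  obtain ⟨p, n, hp, hn, h⟩ := exists_prime_pow v
  rw [(resChar_eq hp hn h).2]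
  exact hn

theorem norm_eq (v : HeightOneSpectrum (𝓞 F)) :
    Ideal.absNorm v.asIdeal = resChar v ^ resDeg v := by
  obtain ⟨p, n, hp, hn, h⟩ := exists_prime_pow v
  rw [(resChar_eq hp hn h).1, (resChar_eq hp hn h).2]
  exact h

variable {K : Type} [Field K] [NumberField K] [Algebra K F]

theorem res_under (v : HeightOneSpectrum (𝓞 F)) :
    resChar v = resChar (v.under (𝓞 K)) ∧ resDeg v = resDeg (v.under (𝓞 K)) * rdeg K v := by
  have h1 := absNorm_rdeg (K := K) v
  rw [norm_eq (v.under (𝓞 K)), ← pow_mul] at h1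
  exact resChar_eq (resChar_prime _) (Nat.mul_pos (resDeg_pos _) (rdeg_pos v)) h1

end norms

section fac
variable {F : Type} [Field F] [NumberField F] {r : ℕ}
  {Φ : ℕ → Matrix (Fin r) (Fin r) ℚ} {w : ℤ}

theorem charDet_eq (v : HeightOneSpectrum (𝓞 F)) (s : ℂ) :
    charDet Φ v s = ((((Φ (resChar v)).map (algebraMap ℚ ℂ)).charpoly.roots).map fun a =>
      1 - ((Ideal.absNorm v.asIdeal : ℕ) : ℂ) ^ (-s) * a ^ resDeg v).prod := by
  unfold charDet
  have h : ((Φ (resChar v)) ^ (resDeg v)).map (algebraMap ℚ ℂ) =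
      ((Φ (resChar v)).map (algebraMap ℚ ℂ)) ^ resDeg v :=
    Matrix.map_pow (Φ (resChar v)) (algebraMap ℚ ℂ) (resDeg v)
  rw [h, det_one_sub_pow _ _ (resDeg_pos v)]

theorem norm_term (hΦ : HasWeights w Φ) (v : HeightOneSpectrum (𝓞 F)) (s : ℂ)
    {a : ℂ} (ha : a ∈ ((Φ (resChar v)).map (algebraMap ℚ ℂ)).charpoly.roots) :
    ‖((Ideal.absNorm v.asIdeal : ℕ) : ℂ) ^ (-s) * a ^ resDeg v‖ ≤
      ((Ideal.absNorm v.asIdeal : ℕ) : ℝ) ^ ((w : ℝ) / 2 - s.re) := by
  have hp := resChar_prime v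
  have hp0 : (0 : ℝ) < resChar v := by exact_mod_cast hp.pos
  have hN : 0 < Ideal.absNorm v.asIdeal := by
    rw [norm_eq]
    exact pow_pos hp.pos _
  have hN0 : (0 : ℝ) < (Ideal.absNorm v.asIdeal : ℕ) := by exact_mod_cast hN
  have h1 := (hΦ _ hp a (Polynomial.isRoot_of_mem_roots ha)).1
  rw [norm_mul, Complex.norm_natCast_cpow_of_pos hN, norm_pow, Complex.neg_re]
  have h2 : ((resChar v : ℝ) ^ ((w : ℝ) / 2)) ^ resDeg v =
      ((Ideal.absNorm v.asIdeal : ℕ) : ℝ) ^ ((w : ℝ) / 2) := by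
    rw [norm_eq]
    push_cast
    rw [← Real.rpow_natCast, ← Real.rpow_mul hp0.le, mul_comm, Real.rpow_mul hp0.le,
      Real.rpow_natCast]
  have h3 : ‖a‖ ^ resDeg v ≤ ((Ideal.absNorm v.asIdeal : ℕ) : ℝ) ^ ((w : ℝ) / 2) := by
    rw [← h2]
    exact pow_le_pow_left₀ (norm_nonneg _) h1 _
  have h4 : (0 : ℝ) ≤ ((Ideal.absNorm v.asIdeal : ℕ) : ℝ) ^ (-s.re) := by positivity
  refine (mul_le_mul_of_nonneg_left h3 h4).trans (le_of_eq ?_)
  rw [← Real.rpow_add hN0]
  congr 1
  ring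

theorem two_le_norm (v : HeightOneSpectrum (𝓞 F)) : 2 ≤ Ideal.absNorm v.asIdeal := by
  rw [norm_eq]
  exact (resChar_prime v).two_le.trans (Nat.le_self_pow (resDeg_pos v).ne' _)

theorem charDet_ne (hΦ : HasWeights w Φ) (v : HeightOneSpectrum (𝓞 F)) {s : ℂ}
    (hs : (w : ℝ) / 2 < s.re) : charDet Φ v s ≠ 0 := by
  rw [charDet_eq v]
  intro h0
  rw [Multiset.prod_eq_zero_iff, Multiset.mem_map] at h0
  obtain ⟨a, ha, h1⟩ := h0
  have h2 := norm_term hΦ v s ha
  rw [← sub_eq_zero.1 h1, norm_one] at h2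
  have h3 : (2 : ℝ) ≤ (Ideal.absNorm v.asIdeal : ℕ) := by exact_mod_cast two_le_norm v
  have h5 : (w : ℝ) / 2 - s.re < 0 := by linarith
  exact absurd h2 (not_le.2 (Real.rpow_lt_one_of_one_lt_of_neg (by linarith) h5))

theorem charDet_ne_zero (hΦ : HasWeights w Φ) (v : HeightOneSpectrum (𝓞 F)) :
    charDet Φ v 0 ≠ 0 := by
  rw [charDet_eq v]
  intro h0
  rw [Multiset.prod_eq_zero_iff, Multiset.mem_map] at h0
  obtain ⟨a, ha, h1⟩ := h0
  rw [neg_zero, Complex.cpow_zero, one_mul] at h1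
  have h2 : ‖a‖ ^ resDeg v = 1 := by
    rw [← norm_pow, ← sub_eq_zero.1 h1, norm_one]
  have h3 := (hΦ _ (resChar_prime v) a (Polynomial.isRoot_of_mem_roots ha)).2
  exact h3 ((pow_eq_one_iff_of_nonneg (norm_nonneg _) (resDeg_pos v).ne').1 h2)

theorem charDet_sub_one (hΦ : HasWeights w Φ) (v : HeightOneSpectrum (𝓞 F)) {s : ℂ}
    (hs : (w : ℝ) / 2 < s.re) : ‖1 - charDet Φ v s‖ ≤
      2 ^ r * ((Ideal.absNorm v.asIdeal : ℕ) : ℝ) ^ ((w : ℝ) / 2 - s.re) := by
  have h3 : (2 : ℝ) ≤ (Ideal.absNorm v.asIdeal : ℕ) := by exact_mod_cast two_le_norm v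
  have h5 : (0 : ℝ) ≤ ((Ideal.absNorm v.asIdeal : ℕ) : ℝ) ^ ((w : ℝ) / 2 - s.re) := by positivity
  have hcard : (((Φ (resChar v)).map (algebraMap ℚ ℂ)).charpoly.roots).card = r := by
    rw [← (IsAlgClosed.splits _).natDegree_eq_card_roots, Matrix.charpoly_natDegree_eq_dim,
      Fintype.card_fin]
  have h1 := norm_prod_sub_one ((((Φ (resChar v)).map (algebraMap ℚ ℂ)).charpoly.roots).map
    fun a => ((Ideal.absNorm v.asIdeal : ℕ) : ℂ) ^ (-s) * a ^ resDeg v) h5
    (Real.rpow_le_one_of_one_le_of_nonpos (by linarith) (by linarith)) (by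
      intro y hy
      obtain ⟨a, ha, rfl⟩ := Multiset.mem_map.1 hy
      exact norm_term hΦ v s ha)
  rw [Multiset.map_map, Multiset.card_map, hcard] at h1
  rw [← norm_neg, neg_sub, charDet_eq v]
  refine h1.trans (mul_le_mul_of_nonneg_right ?_ h5)
  linarith

theorem differentiable_charDet (v : HeightOneSpectrum (𝓞 F)) :
    Differentiable ℂ (fun s => charDet Φ v s) := by
  have h : (fun s => charDet Φ v s) = fun s =>
    ((((Φ (resChar v)).map (algebraMap ℚ ℂ)).charpoly.roots).map fun a =>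
    1 - ((Ideal.absNorm v.asIdeal : ℕ) : ℂ) ^ (-s) * a ^ resDeg v).prod := by
    funext s
    exact charDet_eq v s
  rw [h]
  have h0 : ((Ideal.absNorm v.asIdeal : ℕ) : ℂ) ≠ 0 := by
    have := two_le_norm v
    exact_mod_cast (by omega : Ideal.absNorm v.asIdeal ≠ 0)
  induction (((Φ (resChar v)).map (algebraMap ℚ ℂ)).charpoly.roots) using
    Multiset.induction_on with
  | empty => simp
  | cons a R ih =>
    simp only [Multiset.map_cons, Multiset.prod_cons]
    refine Differentiable.mul ?_ ih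
    refine (differentiable_const _).sub (Differentiable.mul_const ?_ _)
    intro s
    exact (differentiableAt_id.neg).const_cpow (Or.inl h0)

theorem charDet_zero (v : HeightOneSpectrum (𝓞 F)) : ∃ q : ℚ, charDet Φ v 0 = q := by
  refine ⟨(1 - (Φ (resChar v)) ^ (resDeg v)).det, ?_⟩
  unfold charDet
  rw [neg_zero, Complex.cpow_zero, one_smul]
  have h := RingHom.map_det (algebraMap ℚ ℂ) (1 - (Φ (resChar v)) ^ (resDeg v))
  rw [eq_ratCast] at h
  rw [h]
  congr 1
  rw [map_sub, map_one]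
  rfl

/-- minus the logarithm -/
noncomputable def ell (Φ : ℕ → Matrix (Fin r) (Fin r) ℚ)
    (v : HeightOneSpectrum (𝓞 F)) (s : ℂ) : ℂ := -Complex.log (charDet Φ v s)

theorem exp_ell (hΦ : HasWeights w Φ) (v : HeightOneSpectrum (𝓞 F)) {s : ℂ}
    (hs : (w : ℝ) / 2 < s.re) : Complex.exp (ell Φ v s) = (charDet Φ v s)⁻¹ := by
  unfold ell
  rw [Complex.exp_neg, Complex.exp_log (charDet_ne hΦ v hs)]

theorem summable_ell (hΦ : HasWeights w Φ) {s : ℂ} (hs : (w : ℝ) / 2 + 1 < s.re) :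
    Summable fun v : HeightOneSpectrum (𝓞 F) => ell Φ v s := by
  have h1 : Summable fun v : HeightOneSpectrum (𝓞 F) => 1 - charDet Φ v s := by
    have hN := Pool.Agent.W540.BE.normSys (F := F)
    refine Summable.of_norm_bounded ((hN.summable ((w : ℝ) / 2 - s.re) (by linarith)).mul_left
      (2 ^ r)) fun v => ?_
    exact charDet_sub_one hΦ v (by linarith)
  have h2 := h1.clog_one_sub.neg
  refine h2.congr fun v => ?_
  unfold ell
  rw [sub_sub_cancel]

theorem LFun_exp (hΦ : HasWeights w Φ) {s : ℂ} (hs : (w : ℝ) / 2 + 1 < s.re) :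
    LFun Φ F s = Complex.exp (∑' v : HeightOneSpectrum (𝓞 F), ell Φ v s) := by
  unfold LFun
  rw [← (summable_ell hΦ hs).hasSum.cexp.tprod_eq]
  refine tprod_congr fun v => ?_
  exact (exp_ell hΦ v (by linarith)).symm

theorem LFun_ne (hΦ : HasWeights w Φ) {s : ℂ} (hs : (w : ℝ) / 2 + 1 < s.re) : LFun Φ F s ≠ 0 := by
  rw [LFun_exp hΦ hs]
  exact Complex.exp_ne_zero _

end fac

end Pool.Agent.Q284.DL
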