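import Mathlib

/-! The period of the base change of a motive to a number field. -/

set_option autoImplicit false
set_option linter.unusedSectionVars false

namespace Pool.Agent.Q284.DL

open NumberField

section
variable {h : ℕ} {F : Type} [Field F] [NumberField F]

open Classical in
/-- `A` is the matrix of the comparison isomorphism `⊕_τ M_B^+ ⊗ ℂ → (M_dR^+ ⊗ F) ⊗ ℂ` of `M_F`, if `J`
is the matrix of the one of `M` and `b` is a basis of `F` -/
def IsPeriodMatrix (J : Matrix (Fin h) (Fin h) ℂ) (b : Module.Basis (F →+* ℂ) ℚ F)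
    (A : Matrix (Fin h × (F →+* ℂ)) (Fin h × (F →+* ℂ)) ℂ) : Prop :=
  ∀ (i : Fin h) (τ : F →+* ℂ) (y : Fin h × (F →+* ℂ)),
    ∑ k, τ (b k) * A (i, k) y = if τ = y.2 then J i y.1 else 0

open Classical in
/-- a Deligne period of `M_F` -/
def IsPeriod (J : Matrix (Fin h) (Fin h) ℂ) (F : Type) [Field F] [NumberField F] (c : ℂ) : Prop :=
  ∃ (b : Module.Basis (F →+* ℂ) ℚ F)
    (A : Matrix (Fin h × (F →+* ℂ)) (Fin h × (F →+* ℂ)) ℂ), IsPeriodMatrix J b A ∧ A.det = c

/-- the matrix of the embeddings -/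
noncomputable def emb (b : Module.Basis (F →+* ℂ) ℚ F) : Matrix (F →+* ℂ) (F →+* ℂ) ℂ :=
  Matrix.of fun τ k => τ (b k)

open Classical in
theorem det_emb_ne (b : Module.Basis (F →+* ℂ) ℚ F) : (emb b).det ≠ 0 := by
  intro h0
  obtain ⟨v, hv0, hv⟩ := Matrix.exists_vecMul_eq_zero_iff.2 h0
  have h1 : ∀ x : F, ∑ τ, v τ * τ x = 0 := by
    intro x
    have h2 : ∀ k, ∑ τ, v τ * τ (b k) = 0 := fun k => congrFun hv k
    rw [← b.sum_repr x]
    have h3 : ∀ τ : F →+* ℂ, v τ * τ (∑ k, b.repr x k • b k) =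
        ∑ k, ((b.repr x k : ℚ) : ℂ) * (v τ * τ (b k)) := by
      intro τ
      rw [map_sum, Finset.mul_sum]
      refine Finset.sum_congr rfl fun k _ => ?_
      rw [Rat.smul_def, map_mul, map_ratCast]
      ring
    simp only [h3]
    rw [Finset.sum_comm]
    refine Finset.sum_eq_zero fun k _ => ?_
    rw [← Finset.mul_sum, h2 k, mul_zero]
  have h4 := linearIndependent_monoidHom F ℂ
  have h5 : LinearIndependent ℂ (fun τ : F →+* ℂ => ((τ : F →* ℂ) : F → ℂ)) :=
    h4.comp (fun τ : F →+* ℂ => (τ : F →* ℂ)) (fun a b hab => RingHom.ext fun x =>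
      DFunLike.congr_fun hab x)
  rw [Fintype.linearIndependent_iff] at h5
  apply hv0
  funext τ
  refine h5 v ?_ τ
  funext x
  have := h1 x
  simpa using this

open Classical in
theorem period_eq {J : Matrix (Fin h) (Fin h) ℂ} {b : Module.Basis (F →+* ℂ) ℚ F}
    {A : Matrix (Fin h × (F →+* ℂ)) (Fin h × (F →+* ℂ)) ℂ} (hA : IsPeriodMatrix J b A) :
    (emb b).det ^ h * A.det = J.det ^ (Fintype.card (F →+* ℂ)) := by
  have h1 : (Matrix.kroneckerMap (· * ·) (1 : Matrix (Fin h) (Fin h) ℂ) (emb b)) * A =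
      Matrix.kroneckerMap (· * ·) J (1 : Matrix (F →+* ℂ) (F →+* ℂ) ℂ) := by
    ext ⟨i, τ⟩ ⟨j, τ'⟩
    rw [Matrix.mul_apply, Fintype.sum_prod_type]
    simp only [Matrix.kroneckerMap_apply]
    rw [Finset.sum_eq_single i]
    · have h2 := hA i τ (j, τ')
      simp only [Matrix.one_apply_eq, one_mul, emb, Matrix.of_apply] at h2 ⊢
      rw [h2, Matrix.one_apply]
      split_ifs <;> simp
    · intro i' _ hi'
      refine Finset.sum_eq_zero fun k _ => ?_
      rw [Matrix.one_apply_ne hi'.symm, zero_mul, zero_mul]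
    · intro hi
      exact absurd (Finset.mem_univ i) hi
  have h2 := congrArg Matrix.det h1
  have h3 := Matrix.det_kronecker (1 : Matrix (Fin h) (Fin h) ℂ) (emb b)
  have h4 := Matrix.det_kronecker J (1 : Matrix (F →+* ℂ) (F →+* ℂ) ℂ)
  rw [Matrix.det_mul] at h2
  rw [Matrix.det_one, one_pow, one_mul, Fintype.card_fin] at h3
  rw [Matrix.det_one, one_pow, mul_one] at h4
  rw [← h4, ← h3]
  exact h2

end

end Pool.Agent.Q284.DL
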