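import Pool.Agent.Q284.DL.Re
import Pool.Agent.Q284.DL.Cy
import Pool.Agent.Q284.DL.Pd

/-! The weak form of Deligne's conjecture over real abelian fields implies the strong form over `ℚ`. -/

set_option autoImplicit false
set_option linter.unusedSectionVars false

namespace Pool.Agent.Q284.DL

open Complex Filter Topology NumberField IsDedekindDomain Pool.Agent.W401.Cheb
  Pool.Agent.W353.NF Pool.Agent.Q5.BR

section
variable {r h : ℕ} {Φ : ℕ → Matrix (Fin r) (Fin r) ℚ} {w : ℤ}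

/-- `z` is the value at `0` of the meromorphic continuation of the Euler product over `F` -/
def IsValue (w : ℤ) (Φ : ℕ → Matrix (Fin r) (Fin r) ℚ) (F : Type) [Field F] [NumberField F]
    (z : ℂ) : Prop :=
  ∃ f : ℂ → ℂ, MeromorphicOn f Set.univ ∧
    (∀ s : ℂ, (w : ℝ) / 2 + 1 < s.re → f s = LFun Φ F s) ∧ AnalyticAt ℂ f 0 ∧ f 0 = z

/-- the weak form of Deligne's conjecture for `M_F` (`F` in `ℚ(ζ_n)`), with non-vanishing -/
def WeakForm (w : ℤ) (Φ : ℕ → Matrix (Fin r) (Fin r) ℚ) (J : Matrix (Fin h) (Fin h) ℂ) (n : ℕ)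
    (F : Type) [Field F] [NumberField F] : Prop :=
  ∃ z : ℂ, z ≠ 0 ∧ IsValue w Φ F z ∧
    ∃ c : ℂ, IsPeriod J F c ∧ ∃ x ∈ IntermediateField.adjoin ℚ {y : ℂ | y ^ n = 1}, z = x * c

/-- the identity theorem for meromorphic functions -/
theorem mero_eq {f g : ℂ → ℂ} {a : ℝ} (hf : MeromorphicOn f Set.univ)
    (hg : MeromorphicOn g Set.univ) (h : ∀ s : ℂ, a < s.re → f s = g s)
    (hf0 : AnalyticAt ℂ f 0) (hg0 : AnalyticAt ℂ g 0) : f 0 = g 0 := by
  have hfg : MeromorphicOn (f - g) Set.univ := hf.sub hg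
  have h1 : meromorphicOrderAt (f - g) ((a + 1 : ℝ) : ℂ) = ⊤ := by
    rw [meromorphicOrderAt_eq_top_iff]
    refine Filter.Eventually.filter_mono nhdsWithin_le_nhds ?_
    have h2 : ∀ᶠ s : ℂ in 𝓝 ((a + 1 : ℝ) : ℂ), a < s.re :=
      (isOpen_lt continuous_const Complex.continuous_re).mem_nhds (by simp)
    filter_upwards [h2] with s hs
    rw [Pi.sub_apply, h s hs, sub_self]
  have h3 : meromorphicOrderAt (f - g) 0 = ⊤ := by
    by_contra hne
    have h4 : ∃ u : (Set.univ : Set ℂ), meromorphicOrderAt (f - g) u ≠ ⊤ := ⟨⟨0, trivial⟩, hne⟩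
    have h5 := (hfg.exists_meromorphicOrderAt_ne_top_iff_forall
      ⟨⟨0, trivial⟩, isPreconnected_univ⟩).1 h4
    exact h5 ⟨_, trivial⟩ h1
  rw [meromorphicOrderAt_eq_top_iff] at h3
  have h4 : AnalyticAt ℂ (f - g) 0 := hf0.sub hg0
  have h5 : ∀ᶠ s in 𝓝 (0 : ℂ), (f - g) s = 0 := by
    rcases h4.eventually_eq_zero_or_eventually_ne_zero with h6 | h6
    · exact h6
    · exfalso
      obtain ⟨s, hs1, hs2⟩ := (h3.and h6).exists
      exact hs2 hs1
  have h6 := h5.self_of_nhds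
  rw [Pi.sub_apply] at h6
  exact sub_eq_zero.1 h6

open Classical in
theorem det_emb_mem {F : Type} [Field F] [NumberField F] {n p : ℕ} (hn : n ≠ 0)
    (hF : Good F n p) (b : Module.Basis (F →+* ℂ) ℚ F) : (emb b).det ∈ Cf n := by
  rw [Matrix.det_apply]
  refine sum_mem fun σ _ => ?_
  rw [Units.smul_def, zsmul_eq_mul]
  refine mul_mem (intCast_mem _ _) (prod_mem fun i _ => ?_)
  exact mem_Cf hn hF _ _

theorem fixn_id {K F : Type} [Field K] [NumberField K] [Field F] [NumberField F] [Algebra K F] :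
    fixn K F 1 = Module.finrank K F := by
  unfold fixn
  rw [Nat.card_congr (Equiv.subtypeUnivEquiv (fun i => by rw [map_one, Equiv.Perm.one_apply])),
    Nat.card_eq_fintype_card, AlgHom.card]

theorem rel_deg {K : Type} [Field K] [NumberField K] {ι : Type} [Fintype ι] {X : ι → Ext K}
    {c : ι → ℤ} {m : ℤ} (h : RelM X c m) :
    ∑ j, c j * (Module.finrank K (X j).F : ℤ) = m := by
  rw [← h 1]
  exact Finset.sum_congr rfl fun j _ => by rw [fixn_id]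

theorem finrank_rat {F : Type} [Field F] [NumberField F] (i : Algebra ℚ F) :
    @Module.finrank ℚ F _ _ (@Algebra.toModule _ _ _ _ DivisionRing.toRatAlgebra) =
      @Module.finrank ℚ F _ _ (@Algebra.toModule _ _ _ _ i) := by
  have h : i = DivisionRing.toRatAlgebra := Subsingleton.elim _ _
  subst h
  rfl

theorem rel_deg_rat {ι : Type} [Fintype ι] {X : ι → Ext ℚ}
    {c : ι → ℤ} {m : ℤ} (h : RelM X c m) :
    ∑ j, c j * (Module.finrank ℚ (X j).F : ℤ) = m := by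
  rw [← rel_deg h]
  refine Finset.sum_congr rfl fun j _ => ?_
  exact congrArg (fun t : ℕ => c j * (t : ℤ)) (finrank_rat (X j).aF)

theorem period_mem {F : Type} [Field F] [NumberField F] {n p : ℕ} (hn : n ≠ 0)
    (hF : Good F n p) {J : Matrix (Fin h) (Fin h) ℂ} {c : ℂ} (hc : IsPeriod J F c) :
    ∃ x ∈ Cf n, c = x * J.det ^ Module.finrank ℚ F := by
  classical
  obtain ⟨b, A, hA, hAc⟩ := hc
  have h1 := period_eq hA
  have h2 := det_emb_ne b
  rw [NumberField.Embeddings.card] at h1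
  have h3 : A.det = c := by
    rw [← hAc]
  refine ⟨((emb b).det ^ h)⁻¹, inv_mem (pow_mem (det_emb_mem hn hF b) _), ?_⟩
  rw [← h1, h3, ← mul_assoc, inv_mul_cancel₀ (pow_ne_zero _ h2), one_mul]

theorem prod_zpow_sum {ι : Type} [Fintype ι] {a : ℂ} (ha : ∀ _ : ι, a ≠ 0) (e : ι → ℤ) :
    ∏ j, a ^ (e j) = a ^ (∑ j, e j) := by
  classical
  rcases isEmpty_or_nonempty ι with h | ⟨⟨j⟩⟩
  · simp
  · have h0 := ha j
    have key : ∀ s : Finset ι, ∏ j ∈ s, a ^ (e j) = a ^ (∑ j ∈ s, e j) := by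
      intro s
      induction s using Finset.induction_on with
      | empty => simp
      | insert i s hi ih => rw [Finset.prod_insert hi, Finset.sum_insert hi, ih, zpow_add₀ h0]
    exact key _

/-- the step for one prime and one conductor -/
theorem step (hΦ : HasWeights w Φ) {J : Matrix (Fin h) (Fin h) ℂ} {p n : ℕ} (hn : n ≠ 0)
    {ι : Type} [Fintype ι] {X : ι → Ext ℚ} {c : ι → ℤ} (hX : ∀ j, Good (X j).F n p)
    (hrel : RelM X c p) (hweak : ∀ j, WeakForm w Φ J n (X j).F) :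
    ∃ G : ℂ → ℂ, MeromorphicOn G Set.univ ∧ AnalyticAt ℂ G 0 ∧ G 0 ≠ 0 ∧
      (∀ s : ℂ, (w : ℝ) / 2 + 1 < s.re → G s = LFun Φ ℚ s ^ p) ∧
      ∃ x ∈ Cf n, G 0 = x * J.det ^ p := by
  classical
  choose z hz hval c' hc' x hx hzx using hweak
  choose f hf1 hf2 hf3 hf4 using hval
  obtain ⟨T, hT⟩ := L_pow (m := (p : ℤ)) hrel hΦ
  have hne : ∀ j, f j 0 ≠ 0 := fun j => by rw [hf4 j]; exact hz j
  refine ⟨fun s => Rf Φ X c p T s * ∏ j, (f j s) ^ (c j), ?_, ?_, ?_, ?_, ?_⟩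
  · intro s hs
    refine MeromorphicAt.fun_mul (Rf_mero X c p T s hs) (MeromorphicAt.fun_prod fun j _ => ?_)
    exact MeromorphicAt.fun_zpow (hf1 j s hs) _
  · refine (Rf_analytic X c p T hΦ).mul (Finset.analyticAt_fun_prod _ fun j _ => ?_)
    exact (hf3 j).fun_zpow (hne j)
  · exact mul_ne_zero (Rf_ne X c p T hΦ) (Finset.prod_ne_zero_iff.2 fun j _ =>
      zpow_ne_zero _ (hne j))
  · intro s hs
    have h1 := hT s hs
    rw [zpow_natCast] at h1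
    rw [h1]
    change Rf Φ X c p T s * ∏ j, (f j s) ^ (c j) = _
    have h2 : ∀ j, f j s = LFun Φ (X j).F s := fun j => hf2 j s hs
    simp only [h2]
  · obtain ⟨q, hq⟩ := Rf_rat (Φ := Φ) X c p T
    have h1 : ∀ j : ι, ∃ x ∈ Cf n, c' j = x * J.det ^ Module.finrank ℚ (X j).F :=
      fun j => period_mem hn (hX j) (hc' j)
    choose y hy hcy using h1
    have h2 : ∀ j : ι, z j = (x j * y j) * J.det ^ Module.finrank ℚ (X j).F := fun j => by
      rw [hzx j, hcy j]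
      ring
    have hJ : ∀ _ : ι, J.det ≠ 0 := by
      intro j h0
      apply hz j
      rw [h2 j, h0, zero_pow (Module.finrank_pos (R := ℚ) (M := (X j).F)).ne', mul_zero]
    refine ⟨q * ∏ j, (x j * y j) ^ (c j), ?_, ?_⟩
    · refine mul_mem ((Cf n).algebraMap_mem q) (prod_mem fun j _ => zpow_mem ?_ _)
      exact mul_mem (hx j) (hy j)
    · change Rf Φ X c p T 0 * ∏ j, (f j 0) ^ (c j) = _
      rw [hq]
      have h3 : ∏ j, (f j 0) ^ (c j) = (∏ j, (x j * y j) ^ (c j)) *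
          ∏ j, (J.det) ^ ((c j) * (Module.finrank ℚ (X j).F : ℤ)) := by
        rw [← Finset.prod_mul_distrib]
        refine Finset.prod_congr rfl fun j _ => ?_
        rw [hf4 j, h2 j, mul_zpow, ← zpow_natCast, ← zpow_mul, mul_comm (c j)]
      have h4 : ∏ j, (J.det) ^ ((c j) * (Module.finrank ℚ (X j).F : ℤ)) = J.det ^ p := by
        rw [prod_zpow_sum hJ, rel_deg_rat hrel, zpow_natCast]
      rw [h3, h4, mul_assoc]

/-- the weak form for the totally real fields of exponent `p` and degree `p` or `p²` in `ℚ(ζ_n)` -/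
def WeakAt (w : ℤ) (Φ : ℕ → Matrix (Fin r) (Fin r) ℚ) (J : Matrix (Fin h) (Fin h) ℂ) (p n : ℕ) :
    Prop :=
  ∀ (F : Type) [Field F] [NumberField F], Good F n p → WeakForm w Φ J n F

theorem TwoPrimes.ne {p n : ℕ} (h : TwoPrimes p n) : n ≠ 0 := by
  obtain ⟨a, b, ha, hb, -, -, -, rfl⟩ := h
  exact mul_ne_zero ha.ne_zero hb.ne_zero

/-- the step for one prime -/
theorem step_rat (hΦ : HasWeights w Φ) {J : Matrix (Fin h) (Fin h) ℂ} {p n₁ n₂ : ℕ} (hp : p.Prime)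
    (hn₁ : TwoPrimes p n₁) (hn₂ : TwoPrimes p n₂) (hc : n₁.Coprime n₂)
    (h₁ : WeakAt w Φ J p n₁) (h₂ : WeakAt w Φ J p n₂) :
    ∃ G : ℂ → ℂ, MeromorphicOn G Set.univ ∧ AnalyticAt ℂ G 0 ∧ G 0 ≠ 0 ∧
      (∀ s : ℂ, (w : ℝ) / 2 + 1 < s.re → G s = LFun Φ ℚ s ^ p) ∧
      ∃ x : ℚ, G 0 = x * J.det ^ p := by
  obtain ⟨ι₁, f₁, X₁, c₁, hX₁, hr₁⟩ := exists_rel hp hn₁
  obtain ⟨ι₂, f₂, X₂, c₂, hX₂, hr₂⟩ := exists_rel hp hn₂
  obtain ⟨G, h1, h2, h3, h4, x, hx, h5⟩ := step hΦ hn₁.ne hX₁ hr₁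
    (fun j => h₁ (X₁ j).F (hX₁ j))
  obtain ⟨G', h1', h2', h3', h4', x', hx', h5'⟩ := step hΦ hn₂.ne hX₂ hr₂
    (fun j => h₂ (X₂ j).F (hX₂ j))
  refine ⟨G, h1, h2, h3, h4, ?_⟩
  have h6 : G 0 = G' 0 := mero_eq h1 h1' (fun s hs => (h4 s hs).trans (h4' s hs).symm) h2 h2'
  have h7 : J.det ^ p ≠ 0 := by
    intro h0
    rw [h0, mul_zero] at h5
    exact h3 h5
  have h8 : x = x' := by
    rw [h5, h5'] at h6
    exact mul_right_cancel₀ h7 h6
  obtain ⟨q, hq⟩ := Cf_inf hn₁.ne hn₂.ne hc hx (h8 ▸ hx')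
  exact ⟨q, by rw [h5, hq]⟩

/-- **The weak form over finitely many real abelian fields implies the strong form over `ℚ`.** -/
theorem weak_strong (hΦ : HasWeights w Φ) {J : Matrix (Fin h) (Fin h) ℂ} {p q n₁ n₂ m₁ m₂ : ℕ}
    (hp : p.Prime) (hq : q.Prime) (hpq : p ≠ q)
    (hn₁ : TwoPrimes p n₁) (hn₂ : TwoPrimes p n₂) (hn : n₁.Coprime n₂)
    (hm₁ : TwoPrimes q m₁) (hm₂ : TwoPrimes q m₂) (hm : m₁.Coprime m₂)
    (h₁ : WeakAt w Φ J p n₁) (h₂ : WeakAt w Φ J p n₂)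
    (h₃ : WeakAt w Φ J q m₁) (h₄ : WeakAt w Φ J q m₂) :
    ∃ z : ℂ, z ≠ 0 ∧ IsValue w Φ ℚ z ∧ ∃ x : ℚ, z = x * J.det := by
  obtain ⟨G, h1, h2, h3, h4, x, h5⟩ := step_rat hΦ hp hn₁ hn₂ hn h₁ h₂
  obtain ⟨G', h1', h2', h3', h4', x', h5'⟩ := step_rat hΦ hq hm₁ hm₂ hm h₃ h₄
  have hbez : (p : ℤ) * p.gcdA q + q * p.gcdB q = 1 := by
    have := Nat.gcd_eq_gcd_ab p q
    rw [(Nat.coprime_primes hp hq).2 hpq] at this
    exact_mod_cast this.symm
  set u := p.gcdA q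
  set v := p.gcdB q
  have hJ : J.det ≠ 0 := by
    intro h0
    rw [h0, zero_pow hp.ne_zero, mul_zero] at h5
    exact h3 h5
  refine ⟨G 0 ^ u * G' 0 ^ v, mul_ne_zero (zpow_ne_zero _ h3) (zpow_ne_zero _ h3'), ?_,
    x ^ u * x' ^ v, ?_⟩
  · refine ⟨fun s => G s ^ u * G' s ^ v, ?_, ?_, ?_, rfl⟩
    · intro s hs
      exact ((h1 s hs).fun_zpow _).fun_mul ((h1' s hs).fun_zpow _)
    · intro s hs
      change G s ^ u * G' s ^ v = _
      rw [h4 s hs, h4' s hs, ← zpow_natCast, ← zpow_natCast, ← zpow_mul, ← zpow_mul,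
        ← zpow_add₀ (LFun_ne hΦ hs), hbez, zpow_one]
    · exact (h2.fun_zpow h3).mul (h2'.fun_zpow h3')
  · rw [h5, h5', mul_zpow, mul_zpow]
    push_cast
    have h6 : (J.det ^ p) ^ u * (J.det ^ q) ^ v = J.det := by
      rw [← zpow_natCast, ← zpow_natCast, ← zpow_mul, ← zpow_mul, ← zpow_add₀ hJ, hbez, zpow_one]
    calc (x : ℂ) ^ u * (J.det ^ p) ^ u * ((x' : ℂ) ^ v * (J.det ^ q) ^ v)
        = (x : ℂ) ^ u * (x' : ℂ) ^ v * ((J.det ^ p) ^ u * (J.det ^ q) ^ v) := by ring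
      _ = _ := by rw [h6]

end

end Pool.Agent.Q284.DL
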