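import Pool.Agent.Q284.DL.Gp
import Pool.Agent.Q5.HR.Artin

/-! The relation between the real abelian fields of degrees `p` and `p²` in a cyclotomic field. -/

set_option autoImplicit false
set_option linter.unusedSectionVars false

namespace Pool.Agent.Q284.DL

open NumberField IsDedekindDomain Pool.Agent.W401.Cheb Pool.Agent.W353.NF Pool.Agent.Q5.BR
  Pool.Agent.Q5.HR

section
variable {K : Type} [Field K] [NumberField K]

open Classical in
theorem fixn_abelian (N : IntermediateField K (AlgebraicClosure K)) [FiniteDimensional K N]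
    [hN : Normal K N] (hc : ∀ a b : N ≃ₐ[K] N, a * b = b * a) (B : Subgroup (N ≃ₐ[K] N))
    (σ : GK K) : fixn K (IntermediateField.fixedField B) σ =
      if (AlgEquiv.restrictNormal σ N : N ≃ₐ[K] N) ∈ B then B.index else 0 := by
  have hgal : IsGalois K N := {}
  have hrange : ∀ i : IntermediateField.fixedField B →ₐ[K] AlgebraicClosure K,
      i.fieldRange ≤ N := by
    rintro i _ ⟨z, rfl⟩
    obtain ⟨f, hf⟩ := exists_extension (N := N) i
    have h2 : f.fieldRange = N := AlgHom.fieldRange_of_normal f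
    change i z ∈ N
    have h3 : i z ∈ f.fieldRange := ⟨_, hf z⟩
    exact h2.le h3
  rw [← card_fixed (IntermediateField.fixedField B) N hrange σ]
  set g : N ≃ₐ[K] N := AlgEquiv.restrictNormal σ N with hg
  have h1 := card_mul_fix B g
  have hB : 0 < Nat.card B := Nat.card_pos
  apply Nat.eq_of_mul_eq_mul_left hB
  rw [h1]
  unfold cj
  have h4 : ∀ x : N ≃ₐ[K] N, x⁻¹ * g * x = g := by
    intro x
    rw [hc x⁻¹ g, mul_assoc, inv_mul_cancel, mul_one]
  split_ifs with h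
  · rw [Subgroup.card_mul_index]
    have h5 : ∀ x : N ≃ₐ[K] N, x⁻¹ * g * x ∈ B := fun x => by rw [h4 x]; exact h
    exact Nat.card_congr (Equiv.subtypeUnivEquiv h5)
  · rw [mul_zero]
    have : IsEmpty {x : N ≃ₐ[K] N // x⁻¹ * g * x ∈ B} := ⟨fun x => h (by rw [← h4 x.1]; exact x.2)⟩
    exact Nat.card_of_isEmpty

theorem finrank_fixed (N : IntermediateField K (AlgebraicClosure K)) [FiniteDimensional K N]
    [hN : Normal K N] (B : Subgroup (N ≃ₐ[K] N)) :
    Module.finrank K (IntermediateField.fixedField B) = B.index := by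
  have hgal : IsGalois K N := {}
  have h1 : Module.finrank (IntermediateField.fixedField B) N = Nat.card B :=
    IntermediateField.finrank_fixedField_eq_card B
  have h2 := Module.finrank_mul_finrank K (IntermediateField.fixedField B) N
  have h3 : Nat.card (N ≃ₐ[K] N) = Module.finrank K N := IsGalois.card_aut_eq_finrank K N
  have h4 := Subgroup.card_mul_index B
  rw [h1, ← h3, ← h4, mul_comm] at h2
  exact Nat.eq_of_mul_eq_mul_left Nat.card_pos h2

end

theorem exists_lift {E L : Type} [Field E] [Field L] [Algebra E L] [Algebra.IsAlgebraic E L]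
    (τ : E →+* ℂ) : ∃ f : L →+* ℂ, ∀ y : E, f (algebraMap E L y) = τ y := by
  let _ : Algebra E ℂ := τ.toAlgebra
  let f : L →ₐ[E] ℂ := IsAlgClosed.lift
  exact ⟨f, fun y => f.commutes y⟩

/-- complex conjugation on a cyclotomic extension -/
theorem conj_lift {K N : Type} [Field K] [Field N] [Algebra K N] (n : ℕ) [NeZero n]
    [IsCyclotomicExtension {n} K N] {ζ : N} (hζ : IsPrimitiveRoot ζ n)
    (s : N ≃ₐ[K] N) (hs : s ζ = ζ⁻¹) (f : N →+* ℂ)
    (hf : ∀ x : K, (starRingEnd ℂ) (f (algebraMap K N x)) = f (algebraMap K N x)) (y : N) :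
    (starRingEnd ℂ) (f y) = f (s y) := by
  let _ : Algebra K ℂ := (f.comp (algebraMap K N)).toAlgebra
  let g : N →ₐ[K] ℂ := { f with commutes' := fun x => rfl }
  let g' : N →ₐ[K] ℂ := { (starRingEnd ℂ).comp f with commutes' := fun x => hf x }
  have hgg : g' = g.comp (s : N →ₐ[K] N) := by
    refine (hζ.powerBasis K).algHom_ext ?_
    rw [hζ.powerBasis_gen K]
    change (starRingEnd ℂ) (f ζ) = f (s ζ)
    rw [hs, map_inv₀]
    have h1 : ‖f ζ‖ = 1 := by
      refine Complex.norm_eq_one_of_pow_eq_one (n := n) ?_ (NeZero.ne n)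
      rw [← map_pow, hζ.pow_eq_one, map_one]
    have h2 : f ζ * (starRingEnd ℂ) (f ζ) = 1 := by
      rw [Complex.mul_conj, Complex.normSq_eq_norm_sq, h1]
      norm_num
    exact eq_inv_of_mul_eq_one_right h2
  exact DFunLike.congr_fun hgg y

/-- complex conjugation on a subfield of a cyclotomic extension -/
theorem conj_fixed {K N : Type} [Field K] [Field N] [Algebra K N] (n : ℕ)
    [NeZero n] [IsCyclotomicExtension {n} K N] {ζ : N} (hζ : IsPrimitiveRoot ζ n)
    (s : N ≃ₐ[K] N) (hs : s ζ = ζ⁻¹) (E : IntermediateField K N)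
    (hE : ∀ y : E, s (y : N) = (y : N)) (τ : E →+* ℂ)
    (hτ : ∀ x : K, (starRingEnd ℂ) (τ (algebraMap K E x)) = τ (algebraMap K E x)) (y : E) :
    (starRingEnd ℂ) (τ y) = τ y := by
  have hfd : FiniteDimensional K N := IsCyclotomicExtension.finiteDimensional {n} K N
  obtain ⟨f, hf⟩ := exists_lift (L := N) τ
  have h1 := conj_lift n hζ s hs f (fun x => by
    have h2 : algebraMap K N x = algebraMap E N (algebraMap K E x) := rfl
    rw [h2, hf, hτ]) (algebraMap E N y)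
  have h3 : s (algebraMap E N y) = algebraMap E N y := hE y
  rw [h3, hf] at h1
  exact h1

theorem exponent_fixed {K N : Type} [Field K] [Field N] [Algebra K N] [FiniteDimensional K N]
    [IsGalois K N] (B : Subgroup (N ≃ₐ[K] N)) (p : ℕ) (hB : ∀ s : N ≃ₐ[K] N, s ^ p ∈ B)
    [hg : IsGalois K (IntermediateField.fixedField B)]
    (σ : (IntermediateField.fixedField B) ≃ₐ[K] (IntermediateField.fixedField B)) :
    σ ^ p = 1 := by
  obtain ⟨s, rfl⟩ := AlgEquiv.restrictNormalHom_surjective (F := K)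
    (K₁ := IntermediateField.fixedField B) N σ
  rw [← map_pow]
  apply AlgEquiv.ext
  intro y
  apply Subtype.ext
  have h1 := AlgEquiv.restrictNormal_commutes (s ^ p) (IntermediateField.fixedField B) y
  have h2 : (s ^ p) (y : N) = (y : N) := y.2 ⟨s ^ p, hB s⟩
  exact h1.trans h2

/-- a relation between the permutation characters with sum `m` -/
def RelM {K : Type} [Field K] [NumberField K] {ι : Type} [Fintype ι] (X : ι → Ext K) (c : ι → ℤ)
    (m : ℤ) : Prop :=
  ∀ σ : GK K, ∑ j, c j * (fixn K (X j).F σ : ℤ) = m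

section
variable (K : Type) [Field K] [NumberField K]

theorem exists_rel_gen {p : ℕ} (hp : p.Prime) {q₁ q₂ : ℕ} (hq₁ : q₁.Prime) (hq₂ : q₂.Prime)
    (hne : q₁ ≠ q₂) (hq₁p : q₁ ≡ 1 [MOD 2 * p]) (hq₂p : q₂ ≡ 1 [MOD 2 * p])
    (hirr : Irreducible (Polynomial.cyclotomic (q₁ * q₂) K)) :
    ∃ (ι : Type) (_ : Fintype ι) (X : ι → Ext K) (c : ι → ℤ),
      (∀ j, Module.finrank K (X j).F = p ∨ Module.finrank K (X j).F = p ^ 2) ∧
      (∀ j, IsGalois K (X j).F) ∧
      (∀ j, ∀ τ : (X j).F →+* ℂ, (∀ x : K, (starRingEnd ℂ) (τ (algebraMap K (X j).F x)) =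
        τ (algebraMap K (X j).F x)) → ∀ y, (starRingEnd ℂ) (τ y) = τ y) ∧
      (∀ j, ∀ σ : (X j).F ≃ₐ[K] (X j).F, σ ^ p = 1) ∧
      (∀ j, Nonempty ((X j).F →ₐ[K] CyclotomicField (q₁ * q₂) K)) ∧ RelM X c p := by
  classical
  have hcop : q₁.Coprime q₂ := (Nat.coprime_primes hq₁ hq₂).2 hne
  have i1 : Fact q₁.Prime := ⟨hq₁⟩
  have i2 : Fact q₂.Prime := ⟨hq₂⟩
  have ip : Fact p.Prime := ⟨hp⟩
  have hn0 : q₁ * q₂ ≠ 0 := mul_ne_zero hq₁.ne_zero hq₂.ne_zero
  have inn : NeZero (q₁ * q₂) := ⟨hn0⟩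
  -- the cyclotomic field
  obtain ⟨ζ, hζ⟩ := HasEnoughRootsOfUnity.exists_primitiveRoot (AlgebraicClosure K) (q₁ * q₂)
  let N : IntermediateField K (AlgebraicClosure K) := IntermediateField.adjoin K {ζ}
  have hcyc : IsCyclotomicExtension {q₁ * q₂} K N :=
    hζ.intermediateField_adjoin_isCyclotomicExtension K
  have hfd : FiniteDimensional K N := IsCyclotomicExtension.finiteDimensional {q₁ * q₂} K N
  have hgal : IsGalois K N := IsCyclotomicExtension.isGalois {q₁ * q₂} K N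
  have hnor : Normal K N := hgal.to_normal
  let e : (N ≃ₐ[K] N) ≃* (ZMod (q₁ * q₂))ˣ := IsCyclotomicExtension.autEquivPow N hirr
  have hc : ∀ a b : N ≃ₐ[K] N, a * b = b * a := by
    intro a b
    apply e.injective
    rw [map_mul, map_mul]
    exact mul_comm _ _
  let cg : CommGroup (N ≃ₐ[K] N) := { (inferInstance : Group (N ≃ₐ[K] N)) with mul_comm := hc }
  -- the two characters
  have hd : ∀ q : ℕ, [Fact q.Prime] → q ≡ 1 [MOD 2 * p] → 2 * p ∣ Nat.card (ZMod q)ˣ := by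
    intro q hq hqp
    rw [Nat.card_eq_fintype_card, ZMod.card_units]
    exact (Nat.modEq_iff_dvd' hq.out.one_lt.le).1 hqp.symm
  obtain ⟨χ₁, hχ₁⟩ := exists_char (ZMod q₁)ˣ ((dvd_mul_left p 2).trans (hd q₁ hq₁p))
  obtain ⟨χ₂, hχ₂⟩ := exists_char (ZMod q₂)ˣ ((dvd_mul_left p 2).trans (hd q₂ hq₂p))
  let e2 : (ZMod (q₁ * q₂))ˣ ≃* (ZMod q₁)ˣ × (ZMod q₂)ˣ :=
    (Units.mapEquiv (ZMod.chineseRemainder hcop).toMulEquiv).trans MulEquiv.prodUnits
  let ψ : (N ≃ₐ[K] N) →* Multiplicative (ZMod p) × Multiplicative (ZMod p) :=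
    (MonoidHom.prodMap χ₁ χ₂).comp ((e.trans e2).toMonoidHom)
  have hψ : Function.Surjective ψ := by
    rintro ⟨a, b⟩
    obtain ⟨u, hu⟩ := hχ₁ a
    obtain ⟨v, hv⟩ := hχ₂ b
    refine ⟨(e.trans e2).symm (u, v), ?_⟩
    change (MonoidHom.prodMap χ₁ χ₂) ((e.trans e2) ((e.trans e2).symm (u, v))) = (a, b)
    rw [MulEquiv.apply_symm_apply]
    exact Prod.ext hu hv
  let B : ZMod p ⊕ Bool → Subgroup (N ≃ₐ[K] N) := fun j => sub ψ j
  have hnf : ∀ j, NumberField (IntermediateField.fixedField (B j)) := fun j =>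
    { to_charZero := inferInstance,
      to_finiteDimensional := Module.Finite.trans K (IntermediateField.fixedField (B j)) }
  let X : ZMod p ⊕ Bool → Ext K := fun j =>
    @Ext.mk K _ _ (IntermediateField.fixedField (B j)) _ (hnf j) inferInstance
  -- complex conjugation
  let c₀ : N ≃ₐ[K] N := e.symm (-1)
  have hc₀ : ψ c₀ = 1 := by
    have h1 : ((e.trans e2) c₀) ^ 2 = 1 := by
      rw [← map_pow]
      have h2 : c₀ ^ 2 = 1 := by
        rw [← map_pow, neg_one_sq, map_one]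
      rw [h2, map_one]
    have h3 : ((e.trans e2) c₀).1 ^ 2 = 1 := congrArg Prod.fst h1
    have h4 : ((e.trans e2) c₀).2 ^ 2 = 1 := congrArg Prod.snd h1
    exact Prod.ext (char_sq (ZMod q₁)ˣ (hd q₁ hq₁p) χ₁ _ h3)
      (char_sq (ZMod q₂)ˣ (hd q₂ hq₂p) χ₂ _ h4)
  have hcζ : c₀ (IsCyclotomicExtension.zeta (q₁ * q₂) K N) =
      (IsCyclotomicExtension.zeta (q₁ * q₂) K N)⁻¹ := by
    have h1 := (IsCyclotomicExtension.zeta_spec (q₁ * q₂) K N)
    have h2 := h1.autToPow_spec K c₀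
    have h3 : h1.autToPow K c₀ = -1 := by
      have h4 : e c₀ = -1 := e.apply_symm_apply _
      exact h4
    rw [h3] at h2
    rw [← h2]
    refine eq_inv_of_mul_eq_one_left ?_
    rw [← pow_succ]
    refine (h1.pow_eq_one_iff_dvd _).2 ?_
    rw [← ZMod.natCast_eq_zero_iff]
    have h5 : ((((-1 : (ZMod (q₁ * q₂))ˣ) : ZMod (q₁ * q₂)).val : ℕ) : ZMod (q₁ * q₂)) = -1 := by
      rw [ZMod.natCast_val, ZMod.cast_id]
      rfl
    rw [Nat.cast_add, h5, Nat.cast_one, neg_add_cancel]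
  have hBn : ∀ j, (B j).Normal := fun j =>
    ⟨fun a ha g => by rw [hc g a, mul_assoc, mul_inv_cancel, mul_one]; exact ha⟩
  refine ⟨ZMod p ⊕ Bool, inferInstance, X, cf p, fun j => ?_, fun j => ?_, fun j => ?_,
    fun j => ?_, fun j => ?_, fun σ => ?_⟩
  · have h1 := finrank_fixed N (B j)
    change Module.finrank K (IntermediateField.fixedField (B j)) = p ∨
      Module.finrank K (IntermediateField.fixedField (B j)) = p ^ 2
    rw [h1]
    exact index_sub ψ hψ j
  · change IsGalois K (IntermediateField.fixedField (B j))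
    have hn : (B j).Normal := hBn j
    exact IsGalois.of_fixedField_normal_subgroup (B j)
  · intro τ hτ y
    refine conj_fixed (q₁ * q₂) (IsCyclotomicExtension.zeta_spec (q₁ * q₂) K N) c₀ hcζ
      (IntermediateField.fixedField (B j)) ?_ τ hτ y
    intro y
    exact y.2 ⟨c₀, ker_le ψ c₀ hc₀ j⟩
  · change ∀ σ : (IntermediateField.fixedField (B j)) ≃ₐ[K] (IntermediateField.fixedField (B j)),
      σ ^ p = 1
    have hn : (B j).Normal := hBn j
    have hg : IsGalois K (IntermediateField.fixedField (B j)) :=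
      IsGalois.of_fixedField_normal_subgroup (B j)
    exact exponent_fixed (B j) p (fun s => ker_le ψ _ (by
      rw [map_pow]
      have h5 : ∀ y : Multiplicative (ZMod p), y ^ p = 1 := by
        intro y
        apply Multiplicative.toAdd.injective
        rw [toAdd_pow, toAdd_one, nsmul_eq_mul, ZMod.natCast_self, zero_mul]
      exact Prod.ext (h5 _) (h5 _)) j)
  · have e3 : N ≃ₐ[K] CyclotomicField (q₁ * q₂) K :=
      IsCyclotomicExtension.algEquiv {q₁ * q₂} K N (CyclotomicField (q₁ * q₂) K)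
    exact ⟨(e3 : N →ₐ[K] CyclotomicField (q₁ * q₂) K).comp (IntermediateField.fixedField (B j)).val⟩
  · rw [← count' ψ hp hψ (AlgEquiv.restrictNormal σ N)]
    refine Finset.sum_congr rfl fun j _ => ?_
    have h := fixn_abelian N hc (B j) σ
    change cf p j * ((fixn K (IntermediateField.fixedField (B j)) σ : ℕ) : ℤ) = _
    rw [h]
    split_ifs <;> simp [B]

end

/-- a totally real Galois number field of degree `p` or `p²`, with Galois group of exponent `p`,
that embeds in `ℚ(ζ_n)` -/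
def Good (F : Type) [Field F] [NumberField F] (n p : ℕ) : Prop :=
  (Module.finrank ℚ F = p ∨ Module.finrank ℚ F = p ^ 2) ∧ IsGalois ℚ F ∧
    (∀ (σ : F ≃+* F) (x : F), σ^[p] x = x) ∧ IsTotallyReal F ∧
    Nonempty (F →+* CyclotomicField n ℚ)

/-- `n` is the product of two distinct primes, both congruent to `1` modulo `2 p` -/
def TwoPrimes (p n : ℕ) : Prop :=
  ∃ ℓ₁ ℓ₂ : ℕ, ℓ₁.Prime ∧ ℓ₂.Prime ∧ ℓ₁ ≠ ℓ₂ ∧ ℓ₁ ≡ 1 [MOD 2 * p] ∧ ℓ₂ ≡ 1 [MOD 2 * p] ∧
    n = ℓ₁ * ℓ₂

theorem iterate_of_pow {K F : Type} [Field K] [Field F] [Algebra K F] (p : ℕ)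
    (h : ∀ σ : F ≃ₐ[K] F, σ ^ p = 1) (σ : F ≃+* F)
    (hσ : ∀ x : K, σ (algebraMap K F x) = algebraMap K F x) (x : F) : σ^[p] x = x := by
  let σ' : F ≃ₐ[K] F := AlgEquiv.ofRingEquiv (f := σ) hσ
  have h7 : ∀ k : ℕ, (σ' ^ k) x = σ^[k] x := by
    intro k
    induction k with
    | zero => rfl
    | succ k ih =>
      rw [pow_succ', AlgEquiv.mul_apply, ih, Function.iterate_succ_apply']
      rfl
  rw [← h7 p, h σ']
  rfl

theorem transfer {F : Type} [Field F] [NumberField F] (i : Algebra ℚ F) (P : Algebra ℚ F → Prop)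
    (h : P i) : P DivisionRing.toRatAlgebra :=
  Subsingleton.elim i DivisionRing.toRatAlgebra ▸ h

theorem exists_rel {p : ℕ} (hp : p.Prime) {n : ℕ} (hn : TwoPrimes p n) :
    ∃ (ι : Type) (_ : Fintype ι) (X : ι → Ext ℚ) (c : ι → ℤ),
      (∀ j, Good (X j).F n p) ∧ RelM X c p := by
  obtain ⟨q₁, q₂, hq₁, hq₂, hne, hq₁p, hq₂p, rfl⟩ := hn
  have hn0 : q₁ * q₂ ≠ 0 := mul_ne_zero hq₁.ne_zero hq₂.ne_zero
  obtain ⟨ι, hι, X, c, h1, h2, h5, h6, h3, h4⟩ := exists_rel_gen ℚ hp hq₁ hq₂ hne hq₁p hq₂p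
    (Polynomial.cyclotomic.irreducible_rat (Nat.pos_of_ne_zero hn0))
  refine ⟨ι, hι, X, c, fun j => ⟨?_, ?_, ?_, ?_, ?_⟩, h4⟩
  · exact transfer (X j).aF (fun i => @Module.finrank ℚ (X j).F _ _ (@Algebra.toModule _ _ _ _ i) = p ∨
      @Module.finrank ℚ (X j).F _ _ (@Algebra.toModule _ _ _ _ i) = p ^ 2) (h1 j)
  · exact transfer (X j).aF (fun i => @IsGalois ℚ _ (X j).F _ i) (h2 j)
  · intro σ x
    exact @iterate_of_pow ℚ (X j).F _ _ (X j).aF p (h6 j) σ
      (fun q => by rw [eq_ratCast, map_ratCast]) x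
  · refine ⟨fun v => ?_⟩
    rw [← InfinitePlace.mk_embedding v, InfinitePlace.isReal_mk_iff]
    refine RingHom.ext fun y => ?_
    refine h5 j v.embedding (fun x => ?_) y
    rw [eq_ratCast, map_ratCast, map_ratCast]
  · exact ⟨((h3 j).some : (X j).F →+* CyclotomicField (q₁ * q₂) ℚ)⟩

end Pool.Agent.Q284.DL
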