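import Mathlib

/-! The relation between the permutation characters of an abelian group with quotient `(ℤ/p)²`. -/

set_option autoImplicit false
set_option linter.unusedSectionVars false

namespace Pool.Agent.Q284.DL

theorem exists_char (G : Type) [CommGroup G] [Finite G] [IsCyclic G] {p : ℕ}
    (h : p ∣ Nat.card G) : ∃ χ : G →* Multiplicative (ZMod p), Function.Surjective χ := by
  have hG : NeZero (Nat.card G) := ⟨Nat.card_pos.ne'⟩
  have e : Multiplicative (ZMod (Nat.card G)) ≃* G := zmodCyclicMulEquiv inferInstance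
  refine ⟨(AddMonoidHom.toMultiplicative (ZMod.castHom h (ZMod p)).toAddMonoidHom).comp
    e.symm.toMonoidHom, ?_⟩
  intro y
  obtain ⟨x, hx⟩ := ZMod.castHom_surjective h (Multiplicative.toAdd y)
  refine ⟨e (Multiplicative.ofAdd x), ?_⟩
  change (AddMonoidHom.toMultiplicative (ZMod.castHom h (ZMod p)).toAddMonoidHom)
    (e.symm (e (Multiplicative.ofAdd x))) = y
  rw [MulEquiv.symm_apply_apply]
  change Multiplicative.ofAdd (ZMod.castHom h (ZMod p) x) = y
  rw [hx]
  rfl

/-- in a cyclic group of order divisible by `2 p`, a character of order `p` is trivial on the elements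
of square one -/
theorem char_sq (G : Type) [CommGroup G] [Finite G] [IsCyclic G] {p : ℕ}
    (h : 2 * p ∣ Nat.card G) (χ : G →* Multiplicative (ZMod p)) (u : G) (hu : u ^ 2 = 1) :
    χ u = 1 := by
  obtain ⟨g, hg⟩ := IsCyclic.exists_generator (α := G)
  obtain ⟨k, hk⟩ := Subgroup.mem_zpowers_iff.1 (hg u)
  obtain ⟨m, hm⟩ := h
  have ho : orderOf g = Nat.card G := orderOf_eq_card_of_forall_mem_zpowers hg
  have h1 : g ^ (k * 2) = 1 := by
    rw [zpow_mul, hk]
    exact_mod_cast hu
  have h2 : ((orderOf g : ℕ) : ℤ) ∣ k * 2 := orderOf_dvd_iff_zpow_eq_one.2 h1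
  rw [ho, hm] at h2
  obtain ⟨t, ht⟩ := h2
  have h3 : k = p * (m * t) := by
    push_cast at ht
    have h4 : k * 2 = ((p : ℤ) * (m * t)) * 2 := by rw [ht]; ring
    exact mul_right_cancel₀ (by norm_num) h4
  have h5 : ∀ y : Multiplicative (ZMod p), y ^ ((p : ℕ) : ℤ) = 1 := by
    intro y
    rw [zpow_natCast]
    apply Multiplicative.toAdd.injective
    rw [toAdd_pow, toAdd_one, nsmul_eq_mul, ZMod.natCast_self, zero_mul]
  rw [← hk, h3, mul_comm, zpow_mul, map_zpow, h5]

section
variable {G : Type} [CommGroup G] [Finite G] {p : ℕ}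
  (ψ : G →* Multiplicative (ZMod p) × Multiplicative (ZMod p))

/-- the character `x + t y` -/
def lin (t : ZMod p) : G →* Multiplicative (ZMod p) where
  toFun g := Multiplicative.ofAdd
    (Multiplicative.toAdd (ψ g).1 + t * Multiplicative.toAdd (ψ g).2)
  map_one' := by simp
  map_mul' a b := by
    rw [← ofAdd_add, map_mul, Prod.fst_mul, Prod.snd_mul, toAdd_mul, toAdd_mul]
    congr 1
    ring

/-- the character `y` -/
def sndc : G →* Multiplicative (ZMod p) where
  toFun g := (ψ g).2
  map_one' := by simp
  map_mul' a b := by simp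

/-- the kernels -/
def sub : ZMod p ⊕ Bool → Subgroup G
  | Sum.inl t => (lin ψ t).ker
  | Sum.inr true => (sndc ψ).ker
  | Sum.inr false => ψ.ker

/-- the coefficients -/
def cf (p : ℕ) : ZMod p ⊕ Bool → ℤ
  | Sum.inl _ => 1
  | Sum.inr true => 1
  | Sum.inr false => -1

theorem ker_le (g : G) (hg : ψ g = 1) (j : ZMod p ⊕ Bool) : g ∈ sub ψ j := by
  have hx : Multiplicative.toAdd (ψ g).1 = 0 := by rw [hg]; rfl
  have hy : Multiplicative.toAdd (ψ g).2 = 0 := by rw [hg]; rfl
  rcases j with t | b
  · change g ∈ (lin ψ t).ker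
    rw [MonoidHom.mem_ker]
    change Multiplicative.ofAdd
      (Multiplicative.toAdd (ψ g).1 + t * Multiplicative.toAdd (ψ g).2) = 1
    rw [hx, hy, mul_zero, add_zero]
    rfl
  · cases b with
    | true =>
      change g ∈ (sndc ψ).ker
      rw [MonoidHom.mem_ker]
      change (ψ g).2 = 1
      rw [hg]
      rfl
    | false =>
      change g ∈ ψ.ker
      rw [MonoidHom.mem_ker]
      exact hg

theorem card_mzmod (p : ℕ) : Nat.card (Multiplicative (ZMod p)) = p := by
  rw [Nat.card_congr Multiplicative.toAdd, Nat.card_zmod]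

theorem index_sub (hψ : Function.Surjective ψ) (j : ZMod p ⊕ Bool) :
    (sub ψ j).index = p ∨ (sub ψ j).index = p ^ 2 := by
  rcases j with t | b
  · left
    change (lin ψ t).ker.index = p
    rw [Subgroup.index_ker, MonoidHom.range_eq_top_of_surjective, Subgroup.card_top, card_mzmod]
    intro y
    obtain ⟨g, hg⟩ := hψ (y, 1)
    refine ⟨g, ?_⟩
    change Multiplicative.ofAdd
      (Multiplicative.toAdd (ψ g).1 + t * Multiplicative.toAdd (ψ g).2) = y
    rw [hg]
    simp
  · cases b with
    | true =>
      left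
      change (sndc ψ).ker.index = p
      rw [Subgroup.index_ker, MonoidHom.range_eq_top_of_surjective, Subgroup.card_top, card_mzmod]
      intro y
      obtain ⟨g, hg⟩ := hψ (1, y)
      refine ⟨g, ?_⟩
      change (ψ g).2 = y
      rw [hg]
    | false =>
      right
      change ψ.ker.index = p ^ 2
      rw [Subgroup.index_ker, MonoidHom.range_eq_top_of_surjective ψ hψ, Subgroup.card_top,
        Nat.card_prod, card_mzmod, sq]

open Classical in
theorem count (hp : p.Prime) (g : G) [NeZero p] :
    ∑ j : ZMod p ⊕ Bool, cf p j * (if g ∈ sub ψ j then ((sub ψ j).index : ℤ) else 0) =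
      if Function.Surjective ψ then (p : ℤ) else
        ∑ j : ZMod p ⊕ Bool, cf p j * (if g ∈ sub ψ j then ((sub ψ j).index : ℤ) else 0) := by
  split_ifs with hψ
  · have : Fact p.Prime := ⟨hp⟩
    set x := Multiplicative.toAdd (ψ g).1 with hx
    set y := Multiplicative.toAdd (ψ g).2 with hy
    have h1 : ∀ t : ZMod p, (g ∈ sub ψ (Sum.inl t) ↔ x + t * y = 0) := by
      intro t
      change g ∈ (lin ψ t).ker ↔ _
      rw [MonoidHom.mem_ker]
      exact Iff.rfl
    have h2 : g ∈ sub ψ (Sum.inr true) ↔ y = 0 := by
      change g ∈ (sndc ψ).ker ↔ _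
      rw [MonoidHom.mem_ker]
      exact Iff.rfl
    have h3 : g ∈ sub ψ (Sum.inr false) ↔ x = 0 ∧ y = 0 := by
      change g ∈ ψ.ker ↔ _
      rw [MonoidHom.mem_ker, Prod.ext_iff]
      exact Iff.rfl
    have i1 : ∀ t : ZMod p, (sub ψ (Sum.inl t)).index = p := by
      intro t
      rcases index_sub ψ hψ (Sum.inl t) with h | h
      · exact h
      · change (lin ψ t).ker.index = p ^ 2 at h
        change (lin ψ t).ker.index = p
        rw [Subgroup.index_ker] at h ⊢
        have h4 : Nat.card (lin ψ t).range ≤ p := by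
          have h5 := Nat.card_le_card_of_injective
            (fun z : (lin ψ t).range => z.1) Subtype.val_injective
          rwa [card_mzmod] at h5
        have h6 : p < p ^ 2 := by nlinarith [hp.two_le]
        omega
    have i2 : (sub ψ (Sum.inr true)).index = p := by
      rcases index_sub ψ hψ (Sum.inr true) with h | h
      · exact h
      · change (sndc ψ).ker.index = p ^ 2 at h
        change (sndc ψ).ker.index = p
        rw [Subgroup.index_ker] at h ⊢
        have h4 : Nat.card (sndc ψ).range ≤ p := by
          have h5 := Nat.card_le_card_of_injective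
            (fun z : (sndc ψ).range => z.1) Subtype.val_injective
          rwa [card_mzmod] at h5
        have h6 : p < p ^ 2 := by nlinarith [hp.two_le]
        omega
    have i3 : (sub ψ (Sum.inr false)).index = p ^ 2 := by
      change ψ.ker.index = p ^ 2
      rw [Subgroup.index_ker, MonoidHom.range_eq_top_of_surjective ψ hψ, Subgroup.card_top,
        Nat.card_prod, card_mzmod, sq]
    rw [Fintype.sum_sum_type, Fintype.sum_bool]
    simp only [h1, h2, h3, i1, i2, i3, cf, one_mul]
    by_cases hy0 : y = 0
    · by_cases hx0 : x = 0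
      · simp only [hx0, hy0, mul_zero, add_zero, if_true, Finset.sum_const, Finset.card_univ,
          ZMod.card, nsmul_eq_mul, and_self]
        push_cast
        ring
      · simp [hx0, hy0]
    · have h4 : ∀ t : ZMod p, (x + t * y = 0 ↔ t = -x * y⁻¹) := by
        intro t
        constructor
        · intro h
          have h5 : t * y = -x := by linear_combination h
          rw [← h5, mul_assoc, mul_inv_cancel₀ hy0, mul_one]
        · rintro rfl
          rw [mul_assoc, inv_mul_cancel₀ hy0]
          ring
      simp [h4, hy0]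
  · rfl

open Classical in
theorem count' (hp : p.Prime) (hψ : Function.Surjective ψ) (g : G) [NeZero p] :
    ∑ j : ZMod p ⊕ Bool, cf p j * (if g ∈ sub ψ j then ((sub ψ j).index : ℤ) else 0) = p := by
  have h := count ψ hp g
  rwa [if_pos hψ] at h

end

end Pool.Agent.Q284.DL
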